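import Pool.Agent.N356.SP.DefsK
import Pool.Agent.N615.LS.Star3
import Pool.Agent.N645.LS.L7a

/-!
# Project LK (helper356), GK14: the two block inequality for all `k` (helper263)
-/

set_option autoImplicit false

namespace Pool.Agent.N263.LK

open Finset Pool.Agent.H384R3.SPk Pool.Agent.N356.SP
open Pool.Agent.N645.LS (cosp_cont cosp_add cosp_smul)

/-- the statement of GK11 -/
def ST23 : Prop := ∀ {m : ℕ} {C : Finset (ZMod m)} {θ : ZMod m → ZMod m → ℝ} {g f : ℤ →₀ ℝ}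
    {k : ℕ}, 6 ≤ k → GoodC C θ → OrdC k C → (∀ n, 0 ≤ g n) → (∀ n, 0 ≤ f n) →
    (∀ n ∈ g.support, ((n : ℤ) : ZMod m) = 0) → (∀ n ∈ f.support, ((n : ℤ) : ZMod m) ∈ C) →
    Mc k g ≤ ((2 * k).choose k : ℝ) → Mc k f ≤ ((2 * k).choose k : ℝ) → ∀ {t : ℝ}, 0 ≤ t →
    ((2 * k).choose 2 : ℝ) * t ^ 2 * AJ (2 * k - 2) 2 g f +
        ((2 * k).choose 3 : ℝ) * t ^ 3 * AJ (2 * k - 3) 3 g f ≤
      ((2 * k).choose k : ℝ) * (k * cK k * t ^ 2 + 9 / 100 * (k * cK k * t ^ 2) ^ 2)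

/-- the statement of GK12 -/
def STj : Prop := ∀ {m : ℕ} {C : Finset (ZMod m)} {θ : ZMod m → ZMod m → ℝ} {g f : ℤ →₀ ℝ}
    {k : ℕ}, 6 ≤ k → GoodC C θ → OrdC k C → (∀ n, 0 ≤ g n) → (∀ n, 0 ≤ f n) →
    (∀ n ∈ g.support, ((n : ℤ) : ZMod m) = 0) → (∀ n ∈ f.support, ((n : ℤ) : ZMod m) ∈ C) →
    Mc k g ≤ ((2 * k).choose k : ℝ) → Mc k f ≤ ((2 * k).choose k : ℝ) → ∀ {t : ℝ}, 0 ≤ t →
    ∀ {j : ℕ}, 4 ≤ j → j ≤ 2 * k →
    ((2 * k).choose j : ℝ) * t ^ j * AJ (2 * k - j) j g f ≤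
      ((2 * k).choose k : ℝ) * TK k j (k * cK k * t ^ 2)

/-- the statement of GK13b -/
def SsumTK : Prop := ∀ {k : ℕ}, 6 ≤ k → ∀ {X : ℝ}, 0 ≤ X → X ≤ 17 / 10 →
    1 + X + 9 / 100 * X ^ 2 + ∑ j ∈ Icc 4 (2 * k), TK k j X ≤ Nb (1 / k) X

theorem Mc_expK (k : ℕ) (g f : ℤ →₀ ℝ) (t : ℝ) : Mc k (g + t • f) =
    ∑ j ∈ range (2 * k + 1), ((2 * k).choose j : ℝ) * t ^ j * AJ (2 * k - j) j g f := by
  have hg := cosp_cont g
  have hf := cosp_cont f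
  have h1 : Mc k (g + t • f) = ∫ x in (0:ℝ)..1, ∑ j ∈ range (2 * k + 1),
      (((2 * k).choose j : ℝ) * t ^ j) * (cosp g x ^ (2 * k - j) * cosp f x ^ j) := by
    unfold Mc
    refine intervalIntegral.integral_congr fun x _ => ?_
    simp only [cosp_add, cosp_smul]
    rw [add_comm, add_pow]
    refine sum_congr rfl fun j _ => ?_
    rw [mul_pow]
    ring
  rw [h1, intervalIntegral.integral_finsetSum (fun i _ =>
    (Continuous.intervalIntegrable (by fun_prop) 0 1))]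
  refine sum_congr rfl fun j _ => ?_
  rw [intervalIntegral.integral_const_mul]
  rfl

theorem cK_nonneg {k : ℕ} (hk : 1 ≤ k) : 0 ≤ cK k := by
  unfold cK
  refine Real.rpow_nonneg (div_nonneg (pow_nonneg ?_ _) (Nat.cast_nonneg _)) _
  have h1 : (1:ℝ) ≤ k := by exact_mod_cast hk
  linarith

/-- GK14: the two block inequality -/
theorem two_blockK (T23 : ST23) (Tj_le : STj) (sum_TK : SsumTK) {m : ℕ} {C : Finset (ZMod m)}
    {θ : ZMod m → ZMod m → ℝ} {g f : ℤ →₀ ℝ}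
    {k : ℕ} (hk : 6 ≤ k) (h : GoodC C θ) (ho : OrdC k C) (hg0 : ∀ n, 0 ≤ g n)
    (hf0 : ∀ n, 0 ≤ f n) (hg : ∀ n ∈ g.support, ((n : ℤ) : ZMod m) = 0)
    (hf : ∀ n ∈ f.support, ((n : ℤ) : ZMod m) ∈ C) (hG : Mc k g ≤ ((2 * k).choose k : ℝ))
    (hF : Mc k f ≤ ((2 * k).choose k : ℝ)) {t : ℝ} (ht : 0 ≤ t)
    (ht1 : k * cK k * t ^ 2 ≤ 17 / 10) :
    Mc k (g + t • f) ≤ ((2 * k).choose k : ℝ) * Nb (1 / k) (k * cK k * t ^ 2) := by
  have hc := cK_nonneg (k := k) (by omega)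
  have hX0 : 0 ≤ k * cK k * t ^ 2 := by positivity
  have h23 := T23 hk h ho hg0 hf0 hg hf hG hF ht
  have hs := sum_TK hk hX0 ht1
  have hL : (0:ℝ) ≤ ((2 * k).choose k : ℝ) := Nat.cast_nonneg _
  rw [Mc_expK, range_eq_Ico, ← sum_Ico_consecutive _ (Nat.zero_le 4) (show 4 ≤ 2 * k + 1 by omega)]
  have e1 : ∑ j ∈ Ico 0 4, ((2 * k).choose j : ℝ) * t ^ j * AJ (2 * k - j) j g f =
      Mc k g + (((2 * k).choose 2 : ℝ) * t ^ 2 * AJ (2 * k - 2) 2 g f +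
        ((2 * k).choose 3 : ℝ) * t ^ 3 * AJ (2 * k - 3) 3 g f) := by
    rw [← range_eq_Ico, sum_range_succ, sum_range_succ, sum_range_succ, sum_range_one,
      Pool.Agent.N615.LS.A1_eq h.neg h.ne hg0 hf0 hg hf]
    have e2 : AJ (2 * k - 0) 0 g f = Mc k g := by
      unfold AJ Mc
      simp
    rw [e2, Nat.choose_zero_right]
    push_cast
    ring
  have e3 : Ico 4 (2 * k + 1) = Icc 4 (2 * k) := by
    ext j
    simp only [mem_Ico, mem_Icc]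
    omega
  have e4 : ∑ j ∈ Icc 4 (2 * k), ((2 * k).choose j : ℝ) * t ^ j * AJ (2 * k - j) j g f ≤
      ((2 * k).choose k : ℝ) * ∑ j ∈ Icc 4 (2 * k), TK k j (k * cK k * t ^ 2) := by
    rw [mul_sum]
    refine sum_le_sum fun j hj => ?_
    rw [mem_Icc] at hj
    exact Tj_le hk h ho hg0 hf0 hg hf hG hF ht hj.1 hj.2
  rw [e1, e3]
  have h5 := mul_le_mul_of_nonneg_left hs hL
  linarith

end Pool.Agent.N263.LK
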